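import Mathlib

set_option autoImplicit false

/-!
A dense-in-itself linearly ordered space with a base that cannot be split into two bases.

`K = WithTop ℝ` is the real line with a top element. A sequence `x : ℕ → K` is called irregular
if it takes the value `⊤` infinitely often. The space `L` consists of the pairs `(x, j)`, where
`x` is a sequence and `j ≥ 0` is a real number, with `j = 0` unless `x` is irregular; the order
is lexicographic. The base consists of the open sets missing all points `(x, 0)` and of the sets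
`V x n r`: the points which agree with `x` below `n` and whose `n`-th term is `r`, or whose
`n`-th term is `⊤` and which lie below `(y, 1/(n+1))`, where `y` is `x 0, …, x (n-1), ⊤`
followed by `e r`; here `e` maps the real line onto the set of irregular sequences.

If the base is split into `B0` and `B1`, define `x` recursively: `x n = ⊤` if all `V x n r` are
in `B0`, otherwise `x n` is some real `r` with `V x n r` not in `B0`. If `x` is irregular then
`B1` is not a base at `(x, 0)`, otherwise `B0` is not a base at `(x, 0)`.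
-/

namespace Pool.Agent.Results.MP_14c6b5_gt.Disproof

open Set Filter

/-- `x` takes the value `⊤` infinitely often. -/
def Freq (x : ℕ → WithTop ℝ) : Prop := ∀ N, ∃ n, N ≤ n ∧ x n = ⊤

/-- The linearly ordered set: pairs `(x, j)`, lexicographically ordered, `x` a sequence in
`WithTop ℝ`, `j ≥ 0` real, with `j = 0` unless `x` takes the value `⊤` infinitely often. -/
def L : Type := {p : Lex (ℕ → WithTop ℝ) ×ₗ NNReal // (ofLex p).2 ≠ 0 → Freq (ofLex (ofLex p).1)}

noncomputable instance : LinearOrder L := inferInstanceAs (LinearOrder {p : Lex (ℕ → WithTop ℝ) ×ₗ NNReal // (ofLex p).2 ≠ 0 → Freq (ofLex (ofLex p).1)})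

def L.x (u : L) : ℕ → WithTop ℝ := ofLex (ofLex u.1).1
def L.j (u : L) : NNReal := (ofLex u.1).2

def mk (x : ℕ → WithTop ℝ) (j : NNReal) (h : j ≠ 0 → Freq x) : L := ⟨toLex (toLex x, j), h⟩

@[simp] theorem mk_x (x : ℕ → WithTop ℝ) (j : NNReal) (h : j ≠ 0 → Freq x) : (mk x j h).x = x := rfl
@[simp] theorem mk_j (x : ℕ → WithTop ℝ) (j : NNReal) (h : j ≠ 0 → Freq x) : (mk x j h).j = j := rfl

theorem freq_of_j (u : L) (h : u.j ≠ 0) : Freq u.x := u.2 h

theorem lt_iff (u v : L) : u < v ↔
    (∃ n, (∀ m < n, u.x m = v.x m) ∧ u.x n < v.x n) ∨ (u.x = v.x ∧ u.j < v.j) := by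
  have h1 : u < v ↔ u.1 < v.1 := Iff.rfl
  rw [h1, Prod.Lex.lt_iff]
  rfl

theorem ext' {u v : L} (h1 : u.x = v.x) (h2 : u.j = v.j) : u = v := by
  apply Subtype.ext
  apply ofLex.injective
  exact Prod.ext h1 h2

noncomputable instance : TopologicalSpace L := Preorder.topology L
instance : OrderTopology L := ⟨rfl⟩

theorem exists_real_lt (a : WithTop ℝ) : ∃ b : ℝ, (b : WithTop ℝ) < a := by
  induction a using WithTop.recTopCoe with
  | top => exact ⟨0, WithTop.coe_lt_top 0⟩
  | coe a => exact ⟨a - 1, by exact_mod_cast sub_one_lt a⟩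

theorem exists_below (u : L) (n : ℕ) : ∃ l : L, l < u ∧ ∀ m < n, l.x m = u.x m := by
  obtain ⟨b, hb⟩ := exists_real_lt (u.x n)
  refine ⟨mk (Function.update u.x n b) 0 (fun h => absurd rfl h), ?_, ?_⟩
  · rw [lt_iff]
    left
    refine ⟨n, fun m hm => ?_, ?_⟩
    · simp [Function.update_of_ne hm.ne]
    · simpa using hb
  · intro m hm
    simp [Function.update_of_ne hm.ne]

theorem exists_above (u : L) (n : ℕ) : ∃ v : L, u < v ∧ ∀ m < n, v.x m = u.x m := by
  by_cases h : Freq u.x
  · refine ⟨mk u.x (u.j + 1) (fun _ => h), ?_, fun _ _ => rfl⟩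
    rw [lt_iff]
    right
    exact ⟨rfl, by simp⟩
  · unfold Freq at h
    push Not at h
    obtain ⟨N, hN⟩ := h
    have h1 := hN (max N n) (le_max_left _ _)
    obtain ⟨a, ha⟩ := WithTop.ne_top_iff_exists.1 h1
    refine ⟨mk (Function.update u.x (max N n) ((a + 1 : ℝ) : WithTop ℝ)) 0 (fun h => absurd rfl h), ?_, ?_⟩
    · rw [lt_iff]
      left
      refine ⟨max N n, fun m hm => ?_, ?_⟩
      · simp [Function.update_of_ne hm.ne]
      · rw [mk_x, Function.update_self, ← ha]
        exact_mod_cast lt_add_one a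
    · intro m hm
      have : m ≠ max N n := (lt_of_lt_of_le hm (le_max_right _ _)).ne
      simp [Function.update_of_ne this]

instance : NoMinOrder L := ⟨fun u => by
  obtain ⟨l, h, -⟩ := exists_below u 0
  exact ⟨l, h⟩⟩

instance : NoMaxOrder L := ⟨fun u => by
  obtain ⟨l, h, -⟩ := exists_above u 0
  exact ⟨l, h⟩⟩

theorem exists_between' {l u : L} (h : l < u) : ∃ w, l < w ∧ w < u := by
  rcases (lt_iff _ _).1 h with ⟨n, h1, h2⟩ | ⟨h1, h2⟩
  · obtain ⟨w, hw, hw'⟩ := exists_below u (n + 1)
    refine ⟨w, ?_, hw⟩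
    rw [lt_iff]
    left
    refine ⟨n, fun m hm => ?_, ?_⟩
    · rw [h1 m hm, hw' m (by omega)]
    · rw [hw' n (by omega)]
      exact h2
  · obtain ⟨c, hc1, hc2⟩ := exists_between h2
    have hu : u.j ≠ 0 := (lt_of_le_of_lt zero_le h2).ne'
    refine ⟨mk u.x c (fun _ => freq_of_j u hu), ?_, ?_⟩
    · rw [lt_iff]
      right
      exact ⟨h1, hc1⟩
    · rw [lt_iff]
      right
      exact ⟨rfl, hc2⟩

theorem not_isOpen_singleton (u : L) : ¬ IsOpen ({u} : Set L) := by
  intro h
  have h1 : ({u} : Set L) ∈ nhds u := h.mem_nhds rfl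
  obtain ⟨l, v, h2, h3⟩ := mem_nhds_iff_exists_Ioo_subset.1 h1
  obtain ⟨w, hw1, hw2⟩ := exists_between' h2.1
  have h4 : w ∈ ({u} : Set L) := h3 ⟨hw1, hw2.trans h2.2⟩
  exact hw2.ne h4

/-- The points of `L` whose first `n` terms agree with those of `x`. -/
def cyl (x : ℕ → WithTop ℝ) (n : ℕ) : Set L := {u | ∀ m < n, u.x m = x m}

theorem cyl_convex {x : ℕ → WithTop ℝ} {n : ℕ} {l v w : L} (hl : l ∈ cyl x n) (hv : v ∈ cyl x n)
    (h1 : l < w) (h2 : w < v) : w ∈ cyl x n := by
  classical
  by_contra hw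
  have hw' : ∃ m, m < n ∧ w.x m ≠ x m := by
    simp only [cyl, Set.mem_ofPred_eq] at hw
    push Not at hw
    exact hw
  have h3 := Nat.find_spec hw'
  have h4 : ∀ m < Nat.find hw', w.x m = x m := by
    intro m hm
    have := Nat.find_min hw' hm
    push Not at this
    exact this (by omega)
  rcases lt_or_gt_of_ne h3.2 with h5 | h5
  · apply lt_asymm h1
    rw [lt_iff]
    left
    refine ⟨Nat.find hw', fun m hm => ?_, ?_⟩
    · rw [h4 m hm, hl m (by omega)]
    · rw [hl _ h3.1]
      exact h5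
  · apply lt_asymm h2
    rw [lt_iff]
    left
    refine ⟨Nat.find hw', fun m hm => ?_, ?_⟩
    · rw [h4 m hm, hv m (by omega)]
    · rw [hv _ h3.1]
      exact h5

theorem isOpen_cyl (x : ℕ → WithTop ℝ) (n : ℕ) : IsOpen (cyl x n) := by
  rw [isOpen_iff_mem_nhds]
  intro u hu
  obtain ⟨l, hl, hl'⟩ := exists_below u n
  obtain ⟨v, hv, hv'⟩ := exists_above u n
  rw [mem_nhds_iff_exists_Ioo_subset]
  refine ⟨l, v, ⟨hl, hv⟩, fun w hw => ?_⟩
  exact cyl_convex (fun m hm => (hl' m hm).trans (hu m hm)) (fun m hm => (hv' m hm).trans (hu m hm))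
    hw.1 hw.2

/-- Lower bounds are below a whole cylinder. -/
theorem exists_cyl_gt {l u : L} (h : l < u) (hu : u.j = 0) :
    ∃ N, ∀ w : L, (∀ m < N, w.x m = u.x m) → l < w := by
  rcases (lt_iff _ _).1 h with ⟨n, h1, h2⟩ | ⟨h1, h2⟩
  · refine ⟨n + 1, fun w hw => ?_⟩
    rw [lt_iff]
    left
    refine ⟨n, fun m hm => ?_, ?_⟩
    · rw [h1 m hm, hw m (by omega)]
    · rw [hw n (by omega)]
      exact h2
  · rw [hu] at h2
    exact absurd h2 (not_lt.2 zero_le)

theorem exists_cyl_lt {v u : L} (h : u < v) (hu : ¬ Freq u.x) :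
    ∃ N, ∀ w : L, (∀ m < N, w.x m = u.x m) → w < v := by
  rcases (lt_iff _ _).1 h with ⟨n, h1, h2⟩ | ⟨h1, h2⟩
  · refine ⟨n + 1, fun w hw => ?_⟩
    rw [lt_iff]
    left
    refine ⟨n, fun m hm => ?_, ?_⟩
    · rw [← h1 m hm, hw m (by omega)]
    · rw [hw n (by omega)]
      exact h2
  · have h3 : v.j ≠ 0 := (lt_of_le_of_lt zero_le h2).ne'
    exact absurd (h1 ▸ freq_of_j v h3) hu

theorem exists_surj : ∃ e : ℝ → {z : ℕ → WithTop ℝ // Freq z}, Function.Surjective e := by
  have h1 : Cardinal.mk (WithTop ℝ) = Cardinal.continuum := by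
    have : Cardinal.mk (WithTop ℝ) = Cardinal.mk ℝ + 1 := Cardinal.mk_option
    rw [this, Cardinal.mk_real, Cardinal.add_one_eq Cardinal.aleph0_le_continuum]
  have h2 : Cardinal.mk (ℕ → WithTop ℝ) = Cardinal.continuum := by
    rw [← Cardinal.power_def, h1, Cardinal.mk_nat, Cardinal.continuum_power_aleph0]
  have h3 : Cardinal.mk {z : ℕ → WithTop ℝ // Freq z} ≤ Cardinal.mk ℝ := by
    rw [Cardinal.mk_real, ← h2]
    exact Cardinal.mk_subtype_le _
  obtain ⟨f⟩ := h3
  have : Nonempty {z : ℕ → WithTop ℝ // Freq z} := ⟨⟨fun _ => ⊤, fun N => ⟨N, le_rfl, rfl⟩⟩⟩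
  exact ⟨Function.invFun f, Function.invFun_surjective f.injective⟩

noncomputable def e : ℝ → {z : ℕ → WithTop ℝ // Freq z} := Classical.choose exists_surj

theorem e_surj : Function.Surjective e := Classical.choose_spec exists_surj

/-- The sequence `x 0, …, x (n-1), ⊤, z 0, z 1, …`. -/
def splice (x : ℕ → WithTop ℝ) (n : ℕ) (z : ℕ → WithTop ℝ) : ℕ → WithTop ℝ :=
  fun m => if m < n then x m else if m = n then ⊤ else z (m - n - 1)

theorem splice_lt {x z : ℕ → WithTop ℝ} {n m : ℕ} (h : m < n) : splice x n z m = x m := by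
  simp [splice, h]

theorem splice_self (x z : ℕ → WithTop ℝ) (n : ℕ) : splice x n z n = ⊤ := by
  simp [splice]

theorem splice_freq (x : ℕ → WithTop ℝ) (n : ℕ) {z : ℕ → WithTop ℝ} (hz : Freq z) :
    Freq (splice x n z) := by
  intro N
  obtain ⟨m, hm, hm'⟩ := hz N
  refine ⟨m + n + 1, by omega, ?_⟩
  have h1 : ¬ (m + n + 1 < n) := by omega
  have h2 : ¬ (m + n + 1 = n) := by omega
  have h3 : m + n + 1 - n - 1 = m := by omega
  simp only [splice, h1, h2, if_false, h3]
  exact hm'

/-- The bounding point used in the definition of the base. -/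
noncomputable def pt (x : ℕ → WithTop ℝ) (n : ℕ) (r : ℝ) : L :=
  mk (splice x n (e r).1) (1 / (n + 1)) (fun _ => splice_freq x n (e r).2)

/-- The members of the base. -/
def V (x : ℕ → WithTop ℝ) (n : ℕ) (r : ℝ) : Set L :=
  {u | (∀ m < n, u.x m = x m) ∧ (u.x n = (r : WithTop ℝ) ∨ (u.x n = ⊤ ∧ u < pt x n r))}

theorem splice_congr {x y : ℕ → WithTop ℝ} {n : ℕ} (h : ∀ m < n, x m = y m)
    (z : ℕ → WithTop ℝ) : splice x n z = splice y n z := by
  funext m
  unfold splice
  by_cases hm : m < n
  · simp [hm, h m hm]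
  · simp [hm]

theorem pt_congr {x y : ℕ → WithTop ℝ} {n : ℕ} (h : ∀ m < n, x m = y m) (r : ℝ) :
    pt x n r = pt y n r := ext' (splice_congr h _) rfl

theorem V_congr {x y : ℕ → WithTop ℝ} {n : ℕ} (h : ∀ m < n, x m = y m) (r : ℝ) :
    V x n r = V y n r := by
  ext u
  simp only [V, Set.mem_ofPred_eq, pt_congr h r]
  constructor
  · rintro ⟨h1, h2⟩
    exact ⟨fun m hm => (h1 m hm).trans (h m hm), h2⟩
  · rintro ⟨h1, h2⟩
    exact ⟨fun m hm => (h1 m hm).trans (h m hm).symm, h2⟩

theorem isOpen_V (x : ℕ → WithTop ℝ) (n : ℕ) (r : ℝ) : IsOpen (V x n r) := by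
  have h1 : V x n r = cyl (Function.update x n r) (n + 1) ∪
      (cyl (Function.update x n ⊤) (n + 1) ∩ Set.Iio (pt x n r)) := by
    ext u
    simp only [V, cyl, Set.mem_ofPred_eq, Set.mem_union, Set.mem_inter_iff, Set.mem_Iio]
    have key : ∀ a : WithTop ℝ, (∀ m < n + 1, u.x m = Function.update x n a m) ↔
        (∀ m < n, u.x m = x m) ∧ u.x n = a := by
      intro a
      constructor
      · intro h
        refine ⟨fun m hm => ?_, ?_⟩
        · rw [h m (by omega), Function.update_of_ne hm.ne]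
        · rw [h n (by omega), Function.update_self]
      · rintro ⟨h, h'⟩ m hm
        rcases Nat.lt_succ_iff_lt_or_eq.1 hm with h2 | h2
        · rw [Function.update_of_ne h2.ne, h m h2]
        · rw [h2, Function.update_self, h']
    rw [key, key]
    tauto
  rw [h1]
  exact (isOpen_cyl _ _).union ((isOpen_cyl _ _).inter isOpen_Iio)

/-- The base. -/
def B : Set (Set L) :=
  {U | ∃ x n r, U = V x n r} ∪ {U | IsOpen U ∧ ∀ u ∈ U, u.j ≠ 0}

theorem isOpen_j : IsOpen {u : L | u.j ≠ 0} := by
  rw [isOpen_iff_mem_nhds]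
  intro u hu
  rw [mem_nhds_iff_exists_Ioo_subset]
  have hf := freq_of_j u hu
  refine ⟨mk u.x 0 (fun h => absurd rfl h), mk u.x (u.j + 1) (fun _ => hf), ⟨?_, ?_⟩, ?_⟩
  · rw [lt_iff]
    right
    exact ⟨rfl, pos_iff_ne_zero.2 hu⟩
  · rw [lt_iff]
    right
    exact ⟨rfl, by simp⟩
  · rintro w ⟨hw1, hw2⟩
    have hx : w.x = u.x := by
      rcases (lt_iff _ _).1 hw1 with ⟨n, h1, h2⟩ | ⟨h1, h2⟩
      · exfalso
        rcases (lt_iff _ _).1 hw2 with ⟨n', h1', h2'⟩ | ⟨h1', h2'⟩
        · simp only [mk_x] at h1 h2 h1' h2'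
          rcases lt_trichotomy n n' with h | h | h
          · rw [h1' n h] at h2; exact lt_irrefl _ h2
          · subst h; exact lt_asymm h2 h2'
          · rw [h1 n' h] at h2'; exact lt_irrefl _ h2'
        · simp only [mk_x] at h1 h2 h1' h2'
          rw [h1'] at h2
          exact lt_irrefl _ h2
      · exact h1.symm
    rcases (lt_iff _ _).1 hw1 with ⟨n, h1, h2⟩ | ⟨h1, h2⟩
    · simp only [mk_x] at h1 h2
      rw [hx] at h2
      exact absurd h2 (lt_irrefl _)
    · simp only [mk_j] at h2
      exact h2.ne'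

theorem isBasis_B : TopologicalSpace.IsTopologicalBasis B := by
  apply TopologicalSpace.isTopologicalBasis_of_isOpen_of_nhds
  · rintro U (⟨x, n, r, rfl⟩ | hU)
    · exact isOpen_V x n r
    · exact hU.1
  · intro u U hu hU
    by_cases hj : u.j = 0
    · obtain ⟨l, v, ⟨hl, hv⟩, hlv⟩ := mem_nhds_iff_exists_Ioo_subset.1 (hU.mem_nhds hu)
      obtain ⟨N, hN⟩ := exists_cyl_gt hl hj
      by_cases hf : Freq u.x
      · -- irregular point
        -- bound on the right
        obtain ⟨M, hM⟩ : ∃ M : ℕ, ∀ n ≥ M, ∀ w : L, w < mk u.x (1 / (n + 1)) (fun _ => hf) → w < v := by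
          rcases (lt_iff _ _).1 hv with ⟨n, h1, h2⟩ | ⟨h1, h2⟩
          · refine ⟨0, fun k _ w hw => hw.trans ?_⟩
            rw [lt_iff]
            left
            exact ⟨n, h1, h2⟩
          · rw [hj] at h2
            have h3 : (0 : ℝ) < v.j := by exact_mod_cast h2
            obtain ⟨M, hM⟩ := exists_nat_one_div_lt h3
            refine ⟨M, fun k hk w hw => hw.trans_le ?_⟩
            apply le_of_lt
            rw [lt_iff]
            right
            refine ⟨h1, ?_⟩
            rw [mk_j]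
            have h4 : (1 : ℝ) / (k + 1) ≤ 1 / (M + 1) := by
              apply one_div_le_one_div_of_le
              · positivity
              · have : (M : ℝ) ≤ k := by exact_mod_cast hk
                linarith
            have h5 : ((1 / (k + 1) : NNReal) : ℝ) < (v.j : ℝ) := by
              push_cast
              linarith
            exact_mod_cast h5
        obtain ⟨n, hn, hn'⟩ := hf (max N M)
        obtain ⟨r, hr⟩ := e_surj ⟨fun m => u.x (m + n + 1), fun K => by
          obtain ⟨k, hk, hk'⟩ := hf (K + n + 1)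
          refine ⟨k - n - 1, by omega, ?_⟩
          have : k - n - 1 + n + 1 = k := by omega
          show u.x (k - n - 1 + n + 1) = ⊤
          rw [this]
          exact hk'⟩
        have hpt : pt u.x n r = mk u.x (1 / (n + 1)) (fun _ => hf) := by
          apply ext'
          · funext m
            show splice u.x n (e r).1 m = u.x m
            rw [hr]
            unfold splice
            by_cases h1 : m < n
            · simp [h1]
            · by_cases h2 : m = n
              · simp [h2, hn']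
              · simp only [h1, h2, if_false]
                congr 1
                omega
          · rfl
        refine ⟨V u.x n r, Or.inl ⟨_, _, _, rfl⟩, ?_, ?_⟩
        · refine ⟨fun _ _ => rfl, Or.inr ⟨hn', ?_⟩⟩
          rw [hpt, lt_iff]
          right
          refine ⟨rfl, ?_⟩
          rw [hj]
          show (0 : NNReal) < 1 / (n + 1)
          positivity
        · rintro w ⟨hw1, hw2⟩
          apply hlv
          refine ⟨hN w fun m hm => hw1 m (by omega), ?_⟩
          rcases hw2 with hw2 | ⟨hw2, hw3⟩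
          · refine lt_trans ?_ hv
            rw [lt_iff]
            left
            refine ⟨n, hw1, ?_⟩
            rw [hw2, hn']
            exact WithTop.coe_lt_top r
          · exact hM n (by omega) w (hpt ▸ hw3)
      · -- regular point
        obtain ⟨M, hM⟩ := exists_cyl_lt hv hf
        have hf' := hf
        unfold Freq at hf'
        push Not at hf'
        obtain ⟨N', hN'⟩ := hf'
        set n := max N (max M N') with hn
        have h1 := hN' n (by omega)
        obtain ⟨r, hr⟩ := WithTop.ne_top_iff_exists.1 h1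
        refine ⟨V u.x n r, Or.inl ⟨_, _, _, rfl⟩, ⟨fun _ _ => rfl, Or.inl hr.symm⟩, ?_⟩
        rintro w ⟨hw1, hw2⟩
        apply hlv
        exact ⟨hN w fun m hm => hw1 m (by omega), hM w fun m hm => hw1 m (by omega)⟩
    · exact ⟨U ∩ {u : L | u.j ≠ 0}, Or.inr ⟨hU.inter isOpen_j, fun w hw => hw.2⟩, ⟨hu, hj⟩,
        Set.inter_subset_left⟩

open Classical in
/-- The next term of the recursion. -/
noncomputable def nxt (B0 : Set (Set L)) (n : ℕ) (f : ℕ → WithTop ℝ) : WithTop ℝ :=
  if h : ∃ r : ℝ, V f n r ∉ B0 then ((Classical.choose h : ℝ) : WithTop ℝ) else ⊤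

noncomputable def F (B0 : Set (Set L)) : ℕ → (ℕ → WithTop ℝ)
  | 0 => fun _ => ⊤
  | n + 1 => Function.update (F B0 n) n (nxt B0 n (F B0 n))

noncomputable def X (B0 : Set (Set L)) (n : ℕ) : WithTop ℝ := F B0 (n + 1) n

theorem F_eq (B0 : Set (Set L)) (n : ℕ) : ∀ m < n, F B0 n m = X B0 m := by
  induction n with
  | zero => intro m hm; omega
  | succ n ih =>
    intro m hm
    rcases Nat.lt_succ_iff_lt_or_eq.1 hm with h | h
    · rw [F, Function.update_of_ne h.ne]
      exact ih m h
    · subst h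
      rfl

theorem X_eq (B0 : Set (Set L)) (n : ℕ) : X B0 n = nxt B0 n (F B0 n) := by
  unfold X
  rw [F, Function.update_self]

theorem X_top (B0 : Set (Set L)) (n : ℕ) (h : X B0 n = ⊤) (r : ℝ) : V (X B0) n r ∈ B0 := by
  rw [X_eq, nxt] at h
  by_contra hcon
  have h1 : ∃ r : ℝ, V (F B0 n) n r ∉ B0 := ⟨r, by rwa [V_congr (F_eq B0 n)]⟩
  rw [dif_pos h1] at h
  exact WithTop.coe_ne_top h

theorem X_real (B0 : Set (Set L)) (n : ℕ) (r : ℝ) (h : X B0 n = r) : V (X B0) n r ∉ B0 := by
  rw [X_eq, nxt] at h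
  by_cases h1 : ∃ r : ℝ, V (F B0 n) n r ∉ B0
  · rw [dif_pos h1] at h
    have h2 := Classical.choose_spec h1
    rw [WithTop.coe_inj.1 h, V_congr (F_eq B0 n)] at h2
    exact h2
  · rw [dif_neg h1] at h
    exact absurd h WithTop.top_ne_coe

theorem mem_V_iff {x y : ℕ → WithTop ℝ} {n : ℕ} {r : ℝ} {h : (0 : NNReal) ≠ 0 → Freq x}
    (hx : mk x 0 h ∈ V y n r) : V y n r = V x n r :=
  V_congr (fun m hm => (hx.1 m hm).symm) r

theorem not_resolvable (B0 B1 : Set (Set L)) (hB : B0 ∪ B1 = B) (hd : Disjoint B0 B1)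
    (h0 : TopologicalSpace.IsTopologicalBasis B0) (h1 : TopologicalSpace.IsTopologicalBasis B1) :
    False := by
  have hz : (0 : NNReal) ≠ 0 → Freq (X B0) := by simp
  by_cases hf : Freq (X B0)
  · -- the point is irregular
    have hlt : mk (X B0) 0 hz < mk (X B0) 1 (fun _ => hf) := by
      rw [lt_iff]
      right
      exact ⟨rfl, by simp⟩
    obtain ⟨U, hU, hxU, hUs⟩ := h1.exists_subset_of_mem_open
      (show mk (X B0) 0 hz ∈ Set.Iio (mk (X B0) 1 (fun _ => hf)) from hlt) isOpen_Iio
    have hUB : U ∈ B := hB ▸ Or.inr hU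
    rcases hUB with ⟨y, n, r, rfl⟩ | hU2
    · have e1 := mem_V_iff hxU
      rcases hxU.2 with h2 | ⟨h2, -⟩
      · have : mk (X B0) 1 (fun _ => hf) ∈ V y n r := ⟨hxU.1, Or.inl h2⟩
        exact lt_irrefl _ (Set.mem_Iio.1 (hUs this))
      · have h3 := X_top B0 n h2 r
        rw [← e1] at h3
        exact Set.disjoint_left.1 hd h3 hU
    · exact hU2.2 _ hxU rfl
  · -- the point is regular
    have hf' := hf
    unfold Freq at hf'
    push Not at hf'
    obtain ⟨N, hN⟩ := hf'
    obtain ⟨U, hU, hxU, hUs⟩ := h0.exists_subset_of_mem_open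
      (show mk (X B0) 0 hz ∈ cyl (X B0) N from fun _ _ => rfl) (isOpen_cyl _ _)
    have hUB : U ∈ B := hB ▸ Or.inl hU
    rcases hUB with ⟨y, n, r, rfl⟩ | hU2
    · have e1 := mem_V_iff hxU
      have hn : N ≤ n := by
        by_contra hn
        push Not at hn
        -- the point with value `r` at `n`
        have p1 : mk (Function.update (X B0) n (r : WithTop ℝ)) 0 (fun h => absurd rfl h) ∈ V (X B0) n r := by
          refine ⟨fun m hm => ?_, Or.inl ?_⟩
          · simp [Function.update_of_ne hm.ne]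
          · simp
        have p2 : mk (splice (X B0) n (e r).1) 0 (fun h => absurd rfl h) ∈ V (X B0) n r := by
          refine ⟨fun m hm => ?_, Or.inr ⟨?_, ?_⟩⟩
          · exact splice_lt hm
          · exact splice_self _ _ _
          · rw [lt_iff]
            right
            refine ⟨rfl, ?_⟩
            show (0 : NNReal) < 1 / (n + 1)
            positivity
        rw [← e1] at p1 p2
        have q1 := hUs p1 n hn
        have q2 := hUs p2 n hn
        rw [mk_x, Function.update_self] at q1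
        rw [mk_x, splice_self] at q2
        rw [← q2] at q1
        exact WithTop.coe_ne_top q1
      rcases hxU.2 with h2 | ⟨h2, -⟩
      · have h3 := X_real B0 n r h2
        rw [← e1] at h3
        exact h3 hU
      · exact hN n hn h2
    · exact hU2.2 _ hxU rfl

/-- The family `𝓑` of subsets of `X` splits into two disjoint families each of which is a base of
the topology of `X`. -/
def Resolvable {X : Type} [TopologicalSpace X] (𝓑 : Set (Set X)) : Prop :=
  ∃ 𝓑₀ 𝓑₁ : Set (Set X), 𝓑₀ ∪ 𝓑₁ = 𝓑 ∧ Disjoint 𝓑₀ 𝓑₁ ∧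
    TopologicalSpace.IsTopologicalBasis 𝓑₀ ∧ TopologicalSpace.IsTopologicalBasis 𝓑₁

/-- **Theorem.** There is a linearly ordered space without isolated points having a base that
cannot be split into two bases. -/
theorem result : ∃ (L : Type) (_ : LinearOrder L) (_ : TopologicalSpace L) (_ : OrderTopology L),
    (∀ x : L, ¬ IsOpen ({x} : Set L)) ∧
    ∃ 𝓑 : Set (Set L), TopologicalSpace.IsTopologicalBasis 𝓑 ∧ ¬ Resolvable 𝓑 :=
  ⟨L, inferInstance, inferInstance, inferInstance, not_isOpen_singleton, B, isBasis_B,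
    fun ⟨B0, B1, hB, hd, h0, h1⟩ => not_resolvable B0 B1 hB hd h0 h1⟩

/-- The answer to the question: it is not the case that every base of every dense-in-itself
linearly ordered space is resolvable. -/
theorem answer : ¬ ∀ (L : Type) [LinearOrder L] [TopologicalSpace L] [OrderTopology L],
    (∀ x : L, ¬ IsOpen ({x} : Set L)) →
    ∀ 𝓑 : Set (Set L), TopologicalSpace.IsTopologicalBasis 𝓑 → Resolvable 𝓑 := by
  intro h
  obtain ⟨L, i1, i2, i3, h1, 𝓑, h2, h3⟩ := result
  exact h3 (h L h1 𝓑 h2)

end Pool.Agent.Results.MP_14c6b5_gt.Disproof
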